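import Pool.Agent.K3h88.VR.Stm2

/-! Project VR (helper88), DOUB: a function of polynomial growth is doubling infinitely often. -/

set_option autoImplicit false

namespace Pool.Agent.K3h13.VR

open Pool.Agent.K3h88.VR Finset Filter

theorem t_DOUB : S_DOUB := by
  intro f a C h1 h2
  rw [Filter.Frequently]
  intro h3
  rw [eventually_atTop] at h1 h2 h3
  obtain ⟨D1, h1⟩ := h1
  obtain ⟨D2, h2⟩ := h2
  obtain ⟨D3, h3⟩ := h3
  let D := D1 + D2 + D3 + 1
  have hD : 1 ≤ D := by simp only [D]; omega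
  have hle : ∀ j : ℕ, D ≤ 2 ^ j * D := fun j => Nat.le_mul_of_pos_left _ (by positivity)
  have hind : ∀ j : ℕ, 2 ^ ((a + 1) * j) ≤ f (2 ^ j * D) := by
    intro j
    induction j with
    | zero =>
      have := h2 D (by simp only [D]; omega)
      simpa using this
    | succ j ih =>
      have h4 := h3 (2 ^ (j + 1) * D) (by
        have := hle (j + 1)
        simp only [D] at this ⊢
        omega)
      have h5 : 2 ^ (j + 1) * D / 2 = 2 ^ j * D := by
        rw [pow_succ, mul_right_comm, Nat.mul_div_cancel _ (by norm_num)]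
      rw [h5] at h4
      have h6 : 2 ^ (a + 1) * 2 ^ ((a + 1) * j) ≤ 2 ^ (a + 1) * f (2 ^ j * D) :=
        Nat.mul_le_mul_left _ ih
      have h7 : 2 ^ ((a + 1) * (j + 1)) = 2 ^ (a + 1) * 2 ^ ((a + 1) * j) := by
        rw [← pow_add]
        congr 1
        ring
      rw [h7]
      omega
  have h8 := hind (C * D ^ a)
  have h9 := h1 (2 ^ (C * D ^ a) * D) (by
    have := hle (C * D ^ a)
    simp only [D] at this ⊢
    omega)
  have h10 : 2 ^ ((a + 1) * (C * D ^ a)) =
      2 ^ (C * D ^ a) * (2 ^ (C * D ^ a)) ^ a := by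
    rw [← pow_mul, ← pow_add]
    congr 1
    ring
  have h11 : C * (2 ^ (C * D ^ a) * D) ^ a = (C * D ^ a) * (2 ^ (C * D ^ a)) ^ a := by
    rw [mul_pow]
    ring
  have h12 : 2 ^ (C * D ^ a) * (2 ^ (C * D ^ a)) ^ a ≤ (C * D ^ a) * (2 ^ (C * D ^ a)) ^ a := by
    rw [← h10, ← h11]
    exact h8.trans h9
  have h13 : 2 ^ (C * D ^ a) ≤ C * D ^ a := Nat.le_of_mul_le_mul_right h12 (by positivity)
  exact absurd h13 (not_le.2 Nat.lt_two_pow_self)

end Pool.Agent.K3h13.VR
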