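import Pool.Agent.K3h88.VR.Stm

/-! Project VR (helper88): monotonicity in the dimension and the colouring with a sum-free set. -/

set_option autoImplicit false

namespace Pool.Agent.K3h13.VR

open Pool.Agent.K3h88.VR Finset

/-- extension by zero -/
def emb (n' n : ℕ) : E n' →ₗ[ZMod 2] E n where
  toFun x := fun j => if h : (j : ℕ) < n' then x ⟨j, h⟩ else 0
  map_add' x y := by
    ext j
    by_cases h : (j : ℕ) < n' <;> simp [h]
  map_smul' a x := by
    ext j
    by_cases h : (j : ℕ) < n' <;> simp [h]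

theorem emb_inj {n' n : ℕ} (h : n' ≤ n) : Function.Injective (emb n' n) := by
  intro x y hxy
  ext k
  have h1 := congrFun hxy ⟨(k : ℕ), lt_of_lt_of_le k.2 h⟩
  simpa [emb, k.2] using h1

theorem finrank_map {n' n : ℕ} (h : n' ≤ n) (V : Submodule (ZMod 2) (E n')) :
    Module.finrank (ZMod 2) (V.map (emb n' n)) = Module.finrank (ZMod 2) V :=
  (LinearEquiv.finrank_eq (Submodule.equivMapOfInjective (emb n' n) (emb_inj h) V)).symm

theorem t_MONO : S_MONO := by
  intro n n' d hn hG
  classical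
  obtain ⟨B, hB, hM⟩ := hG
  refine ⟨univ.filter (fun x => emb n' n x ∈ B), ?_, ?_⟩
  · intro x hx y hy hxy
    rw [mem_filter] at hx hy hxy
    have h3 := hxy.2
    rw [map_add] at h3
    exact hB _ hx.2 _ hy.2 h3
  · intro V hV
    obtain ⟨x, hxV, hxB⟩ := hM (V.map (emb n' n)) (by rw [finrank_map hn, hV])
    rw [Submodule.mem_map] at hxV
    obtain ⟨v, hv, rfl⟩ := hxV
    exact ⟨v, hv, by rw [mem_filter]; exact ⟨mem_univ _, hxB⟩⟩

theorem mono_map {r n n' e : ℕ} (hn : n' ≤ n) (c : E n → Fin r) (i : Fin r)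
    (h : ∃ V : Submodule (ZMod 2) (E n'),
      Module.finrank (ZMod 2) V = e ∧ ∀ v ∈ V, v ≠ 0 → c (emb n' n v) = i) :
    ∃ V : Submodule (ZMod 2) (E n), Module.finrank (ZMod 2) V = e ∧ ∀ v ∈ V, v ≠ 0 → c v = i := by
  obtain ⟨V, hV, hc⟩ := h
  refine ⟨V.map (emb n' n), by rw [finrank_map hn, hV], ?_⟩
  intro v hv hv0
  rw [Submodule.mem_map] at hv
  obtain ⟨w, hw, rfl⟩ := hv
  refine hc w hw ?_
  rintro rfl
  exact hv0 (map_zero _)

theorem t_MONR : S_MONR := by
  intro r n n' d hn hR hR'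
  refine hR ?_
  intro c
  rcases hR' (fun x => c (emb n' n x)) with ⟨i, hi, h⟩ | ⟨i, hi, h⟩
  · exact Or.inl ⟨i, hi, mono_map hn c i h⟩
  · exact Or.inr ⟨i, hi, mono_map hn c i h⟩

theorem t_TWO : S_TWO := by
  intro n d r hr hG hR
  classical
  obtain ⟨B, hB, hM⟩ := hG
  have hr0 : 0 < r := by omega
  have hr1 : r - 1 < r := by omega
  have h0 : (0 : E n) ∉ B := by
    intro h
    have h1 := hB 0 h 0 h
    rw [add_zero] at h1
    exact h1 h
  rcases hR (fun x => if x ∈ B then ⟨0, hr0⟩ else ⟨r - 1, hr1⟩) with ⟨i, hi, V, hV, hc⟩ | ⟨i, hi, V, hV, hc⟩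
  · -- all nonzero elements are in `B`
    have hall : ∀ v ∈ V, v ≠ 0 → v ∈ B := by
      intro v hv hv0
      by_contra hvB
      have h1 := hc v hv hv0
      simp only [hvB, if_false] at h1
      have h2 := congrArg Fin.val h1
      simp only at h2
      omega
    let b := Module.finBasisOfFinrankEq (ZMod 2) V hV
    have hb0 : ((b 0 : V) : E n) ≠ 0 := by
      intro h
      exact b.ne_zero 0 (Subtype.ext h)
    have hb1 : ((b 1 : V) : E n) ≠ 0 := by
      intro h
      exact b.ne_zero 1 (Subtype.ext h)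
    have hne : ((b 0 : V) : E n) ≠ ((b 1 : V) : E n) := by
      intro h
      have := b.injective (Subtype.ext h)
      exact absurd this (by decide)
    have hsum : ((b 0 : V) : E n) + ((b 1 : V) : E n) ≠ 0 := by
      intro h
      apply hne
      have h2 : ((b 1 : V) : E n) + ((b 1 : V) : E n) = 0 := by
        ext j
        exact CharTwo.add_self_eq_zero _
      exact add_right_cancel (h.trans h2.symm)
    exact hB _ (hall _ (b 0).2 hb0) _ (hall _ (b 1).2 hb1)
      (hall _ (V.add_mem (b 0).2 (b 1).2) hsum)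
  · obtain ⟨x, hxV, hxB⟩ := hM V hV
    have hx0 : x ≠ 0 := by
      rintro rfl
      exact h0 hxB
    have h1 := hc x hxV hx0
    simp only [hxB, if_true] at h1
    have h2 := congrArg Fin.val h1
    simp only at h2
    omega

end Pool.Agent.K3h13.VR
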